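import Pool.Agent.Lib.MP_1a91b9_nuT.S6.Co3
import Pool.Agent.Lib.MP_1a91b9_nuT.S6.Bs1
import Pool.Agent.Lib.MP_1a91b9_nuT.S4.MainA
import Pool.Agent.Lib.MP_1a91b9_nuT.S4.FactorB

/-!
# S7: the values of the partial L-series, in the form used by S4
-/

set_option autoImplicit false

namespace Pool.Agent.Lib.MP_1a91b9_nuT.S7

variable [CD]

open NumberField IsDedekindDomain Pool.Agent.Lib.MP_1a91b9_nuT.S4 Pool.Agent.Lib.MP_1a91b9_nt

universe u

variable {F : Type u} [Field F] [NumberField F] [Algebra K F]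

/-- The set of the elements of `R`, in `F`. -/
def coeSet (R : Set (𝓞 F)) : Set F := (fun z : 𝓞 F => (z : F)) '' R

theorem coe_inj {a b : 𝓞 F} (h : (a : F) = (b : F)) : a = b := RingOfIntegers.coe_injective h

theorem repsU_of_isRep {m b : Ideal (𝓞 F)} {t : 𝓞 F} (ht : t ∉ m * b) {R : Set (𝓞 F)}
    (h : IsRep m b t R) : IsRepsU m (cls b m t) (coeSet R) := by
  refine ⟨?_, ?_⟩
  · rintro _ ⟨r, hr, rfl⟩
    exact ⟨r, rfl, h.mem r hr⟩
  · rintro _ ⟨z, rfl, hz⟩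
    have hz0 : z ≠ 0 := by
      rintro rfl
      apply ht
      rw [zero_sub] at hz
      exact (neg_mem_iff).1 hz
    obtain ⟨u, hu, r, hr, e⟩ := h.ex z hz
    refine ⟨u⁻¹, ⟨?_, r, hr, ?_⟩, ?_⟩
    · have h1 : ((u⁻¹ : (𝓞 F)ˣ) : 𝓞 F) - 1 = -(((u⁻¹ : (𝓞 F)ˣ) : 𝓞 F) * ((u : 𝓞 F) - 1)) := by
        rw [mul_sub, Units.inv_mul]
        ring
      rw [h1]
      exact neg_mem (Ideal.mul_mem_left _ _ hu)
    · change (r : F) = _
      rw [e, ← map_mul (algebraMap (𝓞 F) F), ← mul_assoc, Units.inv_mul, one_mul]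
    · rintro w ⟨hw, r', hr', e'⟩
      have h1 : r' = (w : 𝓞 F) * z := by
        apply coe_inj
        change (r' : F) = algebraMap (𝓞 F) F ((w : 𝓞 F) * z)
        rw [map_mul]
        exact e'
      have h2 : r' = ((w * u : (𝓞 F)ˣ) : 𝓞 F) * r := by
        rw [h1, e, Units.val_mul, mul_assoc]
      have h3 : ((w * u : (𝓞 F)ˣ) : 𝓞 F) - 1 ∈ m := by
        have h4 : ((w * u : (𝓞 F)ˣ) : 𝓞 F) - 1 = ((w : 𝓞 F) - 1) * u + ((u : 𝓞 F) - 1) := by
          rw [Units.val_mul]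
          ring
        rw [h4]
        exact add_mem (Ideal.mul_mem_right _ _ hw) hu
      have h5 := h.uniq r hr r' hr' (w * u) h3 h2
      have h6 : r ≠ 0 := by
        rintro rfl
        apply hz0
        rw [e, mul_zero]
      have h7 : ((w * u : (𝓞 F)ˣ) : 𝓞 F) = 1 := by
        have h8 : (((w * u : (𝓞 F)ˣ) : 𝓞 F) - 1) * r = 0 := by
          rw [sub_mul, one_mul, ← h2, ← h5, sub_self]
        rcases mul_eq_zero.1 h8 with h9 | h9
        · exact sub_eq_zero.1 h9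
        · exact absurd h9 h6
      have h10 : w * u = 1 := Units.ext h7
      exact eq_inv_of_mul_eq_one_left h10

theorem hasSum_coe {R : Set (𝓞 F)} {s : ℂ} {a : ℂ}
    (h : HasSum (fun z : coeSet R => term s (z : F)) a) :
    HasSum (fun r : R => (starRingEnd ℂ) (Nm ((r : 𝓞 F) : F)) *
          ((‖Nm ((r : 𝓞 F) : F)‖ : ℝ) : ℂ) ^ (-2 * s)) a := by
  have hinj : Function.Injective (fun z : 𝓞 F => (z : F)) := RingOfIntegers.coe_injective
  have h1 := (Equiv.Set.image (fun z : 𝓞 F => (z : F)) R hinj).hasSum_iff.2 h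
  exact h1


end Pool.Agent.Lib.MP_1a91b9_nuT.S7
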