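import Mathlib.NumberTheory.LSeries.Injectivity
import Pool.Agent.Lib.MP_1a91b9_nuT.S4.MainA
import Pool.Agent.Lib.MP_1a91b9_nuT.S4.FactorB

/-!
# S7: the L-series of `E` in the half plane `3/2 < Re s`
-/

set_option autoImplicit false

namespace Pool.Agent.Lib.MP_1a91b9_nuT.S7

variable [CD]

open NumberField IsDedekindDomain Filter Topology LSeries
open Pool.Agent.Lib.MP_1a91b9_nuT.S4 Pool.Agent.Lib.MP_1a91b9_nt

universe u

section coef
variable {F : Type*} [Field F] [NumberField F]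

/-- The coefficients of the Dirichlet series `∑ f(I) N(I)^(-s)`. -/
noncomputable def coefI (f : Ideal (𝓞 F) → ℂ) (n : ℕ) : ℂ :=
  ∑' I : (Ideal.absNorm (S := 𝓞 F)) ⁻¹' {n}, f I

/-- A sum over ideals as a Dirichlet series. -/
theorem hasSum_coefI (f : Ideal (𝓞 F) → ℂ) (s : ℂ) (hs : s ≠ 0)
    (h : Summable fun I : Ideal (𝓞 F) => ‖f I * (Ideal.absNorm I : ℂ) ^ (-s)‖) :
    LSeriesHasSum (coefI f) s (Lf f s) := by
  have h1 := h.of_norm.hasSum.tsum_fiberwise (Ideal.absNorm (S := 𝓞 F))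
  have e : (fun n : ℕ => ∑' I : (Ideal.absNorm (S := 𝓞 F)) ⁻¹' {n},
      f I * (Ideal.absNorm (I : Ideal (𝓞 F)) : ℂ) ^ (-s)) = LSeries.term (coefI f) s := by
    funext n
    have e1 : (∑' I : (Ideal.absNorm (S := 𝓞 F)) ⁻¹' {n},
        f I * (Ideal.absNorm (I : Ideal (𝓞 F)) : ℂ) ^ (-s)) = coefI f n * (n : ℂ) ^ (-s) := by
      rw [coefI, ← tsum_mul_right]
      refine tsum_congr fun I => ?_
      have : Ideal.absNorm (I : Ideal (𝓞 F)) = n := I.2
      rw [this]
    rw [e1, LSeries.term_def]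
    split_ifs with h0
    · rw [h0, Nat.cast_zero, Complex.zero_cpow (neg_ne_zero.2 hs), mul_zero]
    · rw [Complex.cpow_neg, div_eq_mul_inv]
  rw [e] at h1
  exact h1

/-- The Dirichlet series of a completely multiplicative function bounded by `N(I)^(1/2)`. -/
theorem hasSum_coefI_of_le (f : Ideal (𝓞 F) → ℂ) (h1 : f 1 = 1)
    (hmul : ∀ I J, f (I * J) = f I * f J)
    (hf : ∀ I, ‖f I‖ ≤ (Ideal.absNorm I : ℝ) ^ (1 / 2 : ℝ)) (s : ℂ) (hs : 3 / 2 < s.re) :
    LSeriesHasSum (coefI f) s (Lf f s) := by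
  refine hasSum_coefI f s ?_ (hasProd_Lf f h1 hmul (1 / 2) (by norm_num) hf s (by linarith)).1
  rintro rfl
  norm_num at hs

end coef

section half
variable {M : Type*} [Field M] [NumberField M]

/-- The Dirichlet series of a curve is determined by its values for `2 < Re s`. -/
theorem half_plane (W : WeierstrassCurve M) (a : ℕ → ℂ)
    (h1 : ∀ s : ℂ, 3 / 2 < s.re → LSeriesSummable a s)
    (h2 : ∀ s : ℂ, 2 < s.re → W.LSeries s = LSeries a s) :
    ∀ s : ℂ, 3 / 2 < s.re → LSeriesSummable ((↑) ∘ W.LFunction) s ∧ W.LSeries s = LSeries a s := by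
  set b : ℕ → ℂ := (↑) ∘ W.LFunction with hb
  have hb3 : LSeriesSummable b 3 := by
    have h3 := LSeries_ne_zero W (s := 3) (by norm_num)
    by_contra hn
    apply h3
    exact tsum_eq_zero_of_not_summable hn
  have ha3 : LSeriesSummable a 3 := h1 3 (by norm_num)
  have hA : abscissaOfAbsConv a < ⊤ := ha3.abscissaOfAbsConv_le.trans_lt (EReal.coe_lt_top _)
  have hB : abscissaOfAbsConv b < ⊤ := hb3.abscissaOfAbsConv_le.trans_lt (EReal.coe_lt_top _)
  have hev : (fun x : ℝ => LSeries b x) =ᶠ[atTop] fun x : ℝ => LSeries a x := by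
    filter_upwards [eventually_gt_atTop (2 : ℝ)] with x hx
    exact h2 x (by simpa using hx)
  have hab : ∀ {n : ℕ}, n ≠ 0 → a n = b n := fun {n} hn =>
    (LSeries.eq_of_LSeries_eventually_eq hB hA hev hn).symm
  intro s hs
  refine ⟨(LSeriesSummable_congr s hab).1 (h1 s hs), ?_⟩
  change LSeries b s = LSeries a s
  exact (LSeries_congr (fun {n} hn => hab hn) s).symm


end half

section main


end main

end Pool.Agent.Lib.MP_1a91b9_nuT.S7
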