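import Pool.Agent.Lib.MP_1a91b9_nuT.BaseK

/-!
# S7: adjoining the square root of the discriminant of `K`
-/

set_option autoImplicit false

namespace Pool.Agent.Lib.MP_1a91b9_nuT.S7

variable [CD]

theorem om_sq : (2 * om - (CD.tr : K)) ^ 2 = -((4 * CD.nm - CD.tr ^ 2 : ℤ) : K) := by
  push_cast
  linear_combination 4 * om_quad

end Pool.Agent.Lib.MP_1a91b9_nuT.S7
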